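import Pool.Agent.LibAC34.CDeg
import Pool.Agent.LibCV66.J4

/-!
Homomorphisms of elliptic curves: nonconstant points, zero homomorphisms, the kernel.
-/

open WeierstrassCurve Pool.Agent.LibBH2 Pool.Agent.LibIG50 Pool.Agent.LibCHd Pool.Agent.LibAC34
  Pool.Agent.LibCV66
open scoped Classical

namespace Pool.Agent.LibAC36

variable {k : Type} [Field k]

/-- nonconstant points -/
def NC {E : WeierstrassCurve k} {F : Type} [Field F] [Algebra k F] (P : (E⁄F).toAffine.Point) :
    Prop :=
  ∃ (x y : F) (h : (E⁄F).toAffine.Nonsingular x y), P = .some x y h ∧ Transcendental k x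

theorem constPt_injective (F : Type) [Field F] [Algebra k F] {E : WeierstrassCurve k} :
    Function.Injective (constPt F : E.toAffine.Point → (E⁄F).toAffine.Point) := by
  intro p q h
  match p, q, h with
  | .zero, .zero, _ => rfl
  | .zero, .some x y h1, h => exact absurd h (by intro h'; cases h')
  | .some x y h1, .zero, h => exact absurd h (by intro h'; cases h')
  | .some x y h1, .some x' y' h2, h =>
    have h3 : (WeierstrassCurve.Affine.Point.some (algebraMap k F x) (algebraMap k F y)
      ((WeierstrassCurve.Affine.map_nonsingular E (algebraMap k F).injective x y).2 h1) :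
        (E⁄F).toAffine.Point) = .some (algebraMap k F x') (algebraMap k F y')
      ((WeierstrassCurve.Affine.map_nonsingular E (algebraMap k F).injective x' y').2 h2) := h
    rw [WeierstrassCurve.Affine.Point.some.injEq] at h3
    have hx := (algebraMap k F).injective h3.1
    have hy := (algebraMap k F).injective h3.2
    subst hx hy
    rfl

theorem constPt_zero' (F : Type) [Field F] [Algebra k F] {E : WeierstrassCurve k} :
    constPt F (0 : E.toAffine.Point) = (0 : (E⁄F).toAffine.Point) := rfl

section closed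
variable [IsAlgClosed k]

theorem exists_const_of_alg {F : Type} [Field F] [Algebra k F] {x : F} (h : IsAlgebraic k x) :
    ∃ x₀ : k, algebraMap k F x₀ = x := by
  have h1 : IsIntegral k x := h.isIntegral
  have h2 := IsAlgClosed.degree_eq_one_of_irreducible k (minpoly.irreducible h1)
  exact minpoly.mem_range_of_degree_eq_one k x h2

theorem nc_or_const {E : WeierstrassCurve k} {F : Type} [Field F] [Algebra k F]
    (P : (E⁄F).toAffine.Point) : NC P ∨ ∃ p : E.toAffine.Point, P = constPt F p := by
  match P with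
  | .zero => exact Or.inr ⟨0, rfl⟩
  | .some x y h =>
    by_cases hx : Transcendental k x
    · exact Or.inl ⟨x, y, h, rfl, hx⟩
    right
    obtain ⟨x₀, rfl⟩ := exists_const_of_alg (not_not.1 hx)
    have hy : IsAlgebraic k y := by
      have h1 := h.1
      rw [WeierstrassCurve.Affine.equation_iff] at h1
      refine IsIntegral.isAlgebraic ⟨Polynomial.X ^ 2 + Polynomial.C (E.a₁ * x₀ + E.a₃) *
        Polynomial.X + Polynomial.C (-(x₀ ^ 3 + E.a₂ * x₀ ^ 2 + E.a₄ * x₀ + E.a₆)), ?_, ?_⟩
      · monicity!
      · simp only [Polynomial.eval₂_add, Polynomial.eval₂_mul, Polynomial.eval₂_pow,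
          Polynomial.eval₂_X, Polynomial.eval₂_C]
        simp only [map_add, map_mul, map_neg, map_pow]
        change y ^ 2 + algebraMap k F E.a₁ * algebraMap k F x₀ * y + algebraMap k F E.a₃ * y =
          algebraMap k F x₀ ^ 3 + algebraMap k F E.a₂ * algebraMap k F x₀ ^ 2 +
            algebraMap k F E.a₄ * algebraMap k F x₀ + algebraMap k F E.a₆ at h1
        linear_combination h1
    obtain ⟨y₀, rfl⟩ := exists_const_of_alg hy
    exact ⟨.some x₀ y₀
      ((WeierstrassCurve.Affine.map_nonsingular E (algebraMap k F).injective x₀ y₀).1 h), rfl⟩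

end closed

theorem NC.not_const {E : WeierstrassCurve k} {F : Type} [Field F] [Algebra k F]
    {P : (E⁄F).toAffine.Point} (h : NC P) (p : E.toAffine.Point) : P ≠ constPt F p := by
  obtain ⟨x, y, hxy, rfl, hx⟩ := h
  intro h0
  match p, h0 with
  | .zero, h0 => cases h0
  | .some x₀ y₀ h₀, h0 =>
    have h3 : (WeierstrassCurve.Affine.Point.some x y hxy : (E⁄F).toAffine.Point) =
      .some (algebraMap k F x₀) (algebraMap k F y₀)
      ((WeierstrassCurve.Affine.map_nonsingular E (algebraMap k F).injective x₀ y₀).2 h₀) := h0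
    rw [WeierstrassCurve.Affine.Point.some.injEq] at h3
    apply hx
    rw [h3.1]
    exact isAlgebraic_algebraMap x₀

theorem NC.ne_zero {E : WeierstrassCurve k} {F : Type} [Field F] [Algebra k F]
    {P : (E⁄F).toAffine.Point} (h : NC P) : P ≠ 0 := h.not_const 0

theorem NC.map {E : WeierstrassCurve k} {F G : Type} [Field F] [Algebra k F] [Field G]
    [Algebra k G] (σ : F →ₐ[k] G) {P : (E⁄F).toAffine.Point} (h : NC P) : NC (mp σ P) := by
  obtain ⟨x, y, hxy, rfl, hx⟩ := h
  obtain ⟨h1, e1⟩ := mp_some σ x y hxy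
  refine ⟨σ x, σ y, h1, e1, ?_⟩
  intro h2
  exact hx ((isAlgebraic_algHom_iff σ σ.toRingHom.injective).1 h2)

/-! ### the generic point -/

section gen
variable [CharZero k]

omit [CharZero k] in
theorem trans_s [CharZero k] {E : WeierstrassCurve k} : Transcendental k (DE E).s := by
  intro h
  exact RatFunc.transcendental_X
    ((isAlgebraic_algHom_iff (DE E).ι (DE E).ι.toRingHom.injective).1 h)

theorem nc_gen (E : WeierstrassCurve k) [E.IsElliptic] : NC (genPt E) :=
  ⟨_, _, _, rfl, trans_s⟩

theorem gen1_genPt (E : WeierstrassCurve k) [E.IsElliptic] :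
    Gen1 (Algebra.ofId k (KE E)) E (genPt E) := by
  have h1 := adjoin_genPt (k := k) (E := E)
  have h2 := adjoin_coo_some (k := k) (E := E) (M := KE E) ∅ (DE E).s
    ((DE E).w - algebraMap k (KE E) (1 / 2) *
      (algebraMap k (KE E) E.a₁ * (DE E).s + algebraMap k (KE E) E.a₃))
    ((Affine.equation_iff_nonsingular_of_Δ_ne_zero
      (W := E⁄(KE E)) (baseChange_Δ_ne (KE E) E)).1 (gen_equation E))
  rw [Set.empty_union, Set.empty_union] at h2
  refine ⟨_, _, _, rfl, fun G hG h => ?_, ?_⟩
  · exact trans_s (E := E) ⟨G, hG, h⟩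
  · rw [eq_top_iff, ← h1]
    exact (le_of_eq h2).trans (IntermediateField.adjoin.mono _ _ _ Set.subset_union_right)

/-- nonconstant points are images of the generic point -/
theorem NC.lift {E : WeierstrassCurve k} [E.IsElliptic] {F : Type} [Field F] [Algebra k F]
    {P : (E⁄F).toAffine.Point} (h : NC P) : ∃ σ : KE E →ₐ[k] F, mp σ (genPt E) = P := by
  obtain ⟨x, y, hxy, rfl, hx⟩ := h
  obtain ⟨j, -, hj⟩ := gen1_lift (Algebra.ofId k (KE E)) (genPt E) (gen1_genPt E)
    (Algebra.ofId k F) x y hxy (fun G hG h => hx ⟨G, hG, h⟩)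
  exact ⟨j, hj⟩

end gen

end Pool.Agent.LibAC36
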