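import Pool.Agent.LibAC36.Ker

/-!
Homomorphisms of elliptic curves: surjectivity over algebraically closed fields and the dual
homomorphism.
-/

open WeierstrassCurve Pool.Agent.LibBH2 Pool.Agent.LibIG50 Pool.Agent.LibCHd Pool.Agent.LibAC34
  Pool.Agent.LibCV66
open scoped Classical

namespace Pool.Agent.LibAC36

variable {k : Type} [Field k] [CharZero k] [IsAlgClosed k] {V W : WeierstrassCurve k}
  [V.IsElliptic] [W.IsElliptic]

omit [CharZero k] [V.IsElliptic] in
theorem NC.add_const {F : Type} [Field F] [Algebra k F] {P : (V⁄F).toAffine.Point} (h : NC P)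
    (p : V.toAffine.Point) : NC (P + constPt F p) := by
  rcases nc_or_const (P + constPt F p) with h4 | ⟨c, h4⟩
  · exact h4
  · exfalso
    apply h.not_const (c - p)
    have h5 : constPt F ((c - p) + p) = constPt F (c - p) + constPt F p :=
      HG_const_add F _ _
    rw [sub_add_cancel] at h5
    rw [← h4] at h5
    exact add_right_cancel h5

omit [IsAlgClosed k] in
theorem surj_nc {φ : Hm V W} (h : NC (φ.f (KE V) (genPt V))) {F : Type} [Field F] [Algebra k F]
    [IsAlgClosed F] {Q : (W⁄F).toAffine.Point} (hQ : NC Q) :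
    ∃ P : (V⁄F).toAffine.Point, φ.f F P = Q := by
  obtain ⟨τ, hτ⟩ := exists_tau h
  obtain ⟨ρ, hρ⟩ := hQ.lift
  let _ : Algebra (KE W) (KE V) := τ.toRingHom.toAlgebra
  have hst : IsScalarTower k (KE W) (KE V) := IsScalarTower.of_algebraMap_eq fun c =>
    (τ.commutes c).symm
  have h1 : Algebra.trdeg k (KE W) = 1 := by simpa using (funF_KE (E := W)).trdeg
  have h2 : Algebra.trdeg k (KE V) = 1 := by simpa using (funF_KE (E := V)).trdeg
  have halg : Algebra.IsAlgebraic (KE W) (KE V) := alg_of_trdeg h1 h2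
  let _ : Algebra (KE W) F := ρ.toRingHom.toAlgebra
  have hst' : IsScalarTower k (KE W) F := IsScalarTower.of_algebraMap_eq fun c =>
    (ρ.commutes c).symm
  let σ : KE V →ₐ[KE W] F := IsAlgClosed.lift
  have h3 : (σ.restrictScalars k).comp τ = ρ := AlgHom.ext fun a => σ.commutes a
  refine ⟨mp (σ.restrictScalars k) (genPt V), ?_⟩
  rw [φ.nat, ← hτ, LibCV66.mp_comp, h3, hρ]

theorem k0_surj₀ {φ : Hm V W} (hφ : ∃ p : V.toAffine.Point, φ.k0 p ≠ 0) (q : W.toAffine.Point) :
    ∃ p : V.toAffine.Point, φ.k0 p = q := by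
  have h := nc_of_ne hφ
  have h1 : NC (mp (IsScalarTower.toAlgHom k (KE W) (AlgebraicClosure (KE W))) (genPt W)) :=
    (nc_gen W).map _
  have h2 := h1.add_const q
  obtain ⟨P1, e1⟩ := surj_nc h h1
  obtain ⟨P2, e2⟩ := surj_nc h h2
  have h3 : φ.f (AlgebraicClosure (KE W)) (P2 - P1) = constPt (AlgebraicClosure (KE W)) q := by
    rw [map_sub, e1, e2]
    abel
  rcases nc_or_const (P2 - P1) with h4 | ⟨p, h4⟩
  · exact absurd h3 ((NC.hm h h4).not_const q)
  · rw [h4, φ.const] at h3
    exact ⟨p, constPt_injective _ h3⟩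

/-- surjectivity over algebraically closed fields -/
theorem surj {φ : Hm V W} (hφ : ∃ p : V.toAffine.Point, φ.k0 p ≠ 0) (F : Type) [Field F]
    [Algebra k F] [IsAlgClosed F] : Function.Surjective (φ.f F) := by
  intro Q
  rcases nc_or_const Q with h | ⟨q, rfl⟩
  · exact surj_nc (nc_of_ne hφ) h
  · obtain ⟨p, rfl⟩ := k0_surj₀ hφ q
    exact ⟨constPt F p, φ.const F p⟩

omit [CharZero k] [IsAlgClosed k] [V.IsElliptic] in
/-- Galois descent -/
theorem descent_closure [CharZero k] {F : Type} [Field F] [Algebra k F]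
    (P : (V⁄(AlgebraicClosure F)).toAffine.Point)
    (h : ∀ σ : AlgebraicClosure F ≃ₐ[F] AlgebraicClosure F,
      mp ((σ : AlgebraicClosure F →ₐ[F] AlgebraicClosure F).restrictScalars k) P = P) :
    ∃ R : (V⁄F).toAffine.Point, mp (IsScalarTower.toAlgHom k F (AlgebraicClosure F)) R = P := by
  have hcz : CharZero F := charZero_of_injective_algebraMap (algebraMap k F).injective
  match P, h with
  | .zero, _ => exact ⟨0, map_zero _⟩
  | .some x y hxy, h =>
    have h1 : ∀ σ : AlgebraicClosure F ≃ₐ[F] AlgebraicClosure F, σ x = x ∧ σ y = y := by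
      intro σ
      obtain ⟨h2, e2⟩ := mp_some ((σ : AlgebraicClosure F →ₐ[F]
        AlgebraicClosure F).restrictScalars k) x y hxy
      have h3 := e2.symm.trans (h σ)
      rw [WeierstrassCurve.Affine.Point.some.injEq] at h3
      exact h3
    obtain ⟨x₀, hx₀⟩ := (InfiniteGalois.mem_range_algebraMap_iff_fixed x).2 fun σ => (h1 σ).1
    obtain ⟨y₀, hy₀⟩ := (InfiniteGalois.mem_range_algebraMap_iff_fixed y).2 fun σ => (h1 σ).2
    have h2 : (V⁄F).toAffine.Nonsingular x₀ y₀ := by
      refine (Affine.baseChange_nonsingular V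
        (IsScalarTower.toAlgHom k F (AlgebraicClosure F)).injective x₀ y₀).1 ?_
      change (V⁄(AlgebraicClosure F)).toAffine.Nonsingular (algebraMap F (AlgebraicClosure F) x₀)
        (algebraMap F (AlgebraicClosure F) y₀)
      rw [hx₀, hy₀]
      exact hxy
    refine ⟨.some x₀ y₀ h2, ?_⟩
    obtain ⟨h3, e3⟩ := mp_some (IsScalarTower.toAlgHom k F (AlgebraicClosure F)) x₀ y₀ h2
    rw [e3]
    rw [WeierstrassCurve.Affine.Point.some.injEq]
    exact ⟨hx₀, hy₀⟩

section dual
variable {φ : Hm V W} (hφ : ∃ p : V.toAffine.Point, φ.k0 p ≠ 0) {n : ℕ}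
  (hn : ∀ (F : Type) [Field F] [Algebra k F] (P : (V⁄F).toAffine.Point), φ.f F P = 0 →
      n • P = 0)

include hφ hn in
theorem dual_pt (F : Type) [Field F] [Algebra k F] (Q : (W⁄F).toAffine.Point) :
    ∃ R : (V⁄F).toAffine.Point, ∀ (G : Type) [Field G] [Algebra k G] (j : F →ₐ[k] G)
      (P : (V⁄G).toAffine.Point), φ.f G P = mp j Q → mp j R = n • P := by
  obtain ⟨P₀, hP₀⟩ := surj hφ (AlgebraicClosure F)
    (mp (IsScalarTower.toAlgHom k F (AlgebraicClosure F)) Q)
  have hker : ∀ (G : Type) [Field G] [Algebra k G] (P P' : (V⁄G).toAffine.Point),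
      φ.f G P = φ.f G P' → n • P = n • P' := by
    intro G _ _ P P' h
    have h1 := hn G (P - P') (by rw [map_sub, h, sub_self])
    rw [smul_sub, sub_eq_zero] at h1
    exact h1
  obtain ⟨R, hR⟩ := descent_closure (n • P₀) (fun σ => by
    rw [map_nsmul]
    apply hker
    rw [φ.nat, hP₀, LibCV66.mp_comp]
    congr 1
    congr 1
    exact AlgHom.ext fun a => σ.commutes a)
  refine ⟨R, fun G _ _ j P hP => ?_⟩
  let ι : G →ₐ[k] AlgebraicClosure G := IsScalarTower.toAlgHom k G (AlgebraicClosure G)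
  let _ : Algebra F (AlgebraicClosure G) := (ι.comp j).toRingHom.toAlgebra
  have hst : IsScalarTower k F (AlgebraicClosure G) := IsScalarTower.of_algebraMap_eq fun c =>
    ((ι.comp j).commutes c).symm
  let J : AlgebraicClosure F →ₐ[F] AlgebraicClosure G := IsAlgClosed.lift
  have h1 : (J.restrictScalars k).comp (IsScalarTower.toAlgHom k F (AlgebraicClosure F)) =
      ι.comp j := AlgHom.ext fun a => J.commutes a
  have h2 : n • mp (J.restrictScalars k) P₀ = n • mp ι P := by
    apply hker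
    rw [φ.nat, hP₀, LibCV66.mp_comp, h1, φ.nat, hP, LibCV66.mp_comp]
  apply LibCV66.mp_injective ι
  rw [LibCV66.mp_comp, ← h1, ← LibCV66.mp_comp, hR, map_nsmul, h2, map_nsmul]

/-- the dual homomorphism, as a function -/
noncomputable def dualFun (F : Type) [Field F] [Algebra k F] (Q : (W⁄F).toAffine.Point) :
    (V⁄F).toAffine.Point :=
  (dual_pt hφ hn F Q).choose

theorem dualFun_spec {F : Type} [Field F] [Algebra k F] {Q : (W⁄F).toAffine.Point}
    {G : Type} [Field G] [Algebra k G] (j : F →ₐ[k] G) {P : (V⁄G).toAffine.Point}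
    (h : φ.f G P = mp j Q) : mp j (dualFun hφ hn F Q) = n • P :=
  (dual_pt hφ hn F Q).choose_spec G j P h

include hφ in
theorem exists_up (F : Type) [Field F] [Algebra k F] (Q : (W⁄F).toAffine.Point) :
    ∃ P : (V⁄(AlgebraicClosure F)).toAffine.Point,
      φ.f (AlgebraicClosure F) P = mp (IsScalarTower.toAlgHom k F (AlgebraicClosure F)) Q :=
  surj hφ (AlgebraicClosure F) _

theorem dualFun_add (F : Type) [Field F] [Algebra k F] (Q Q' : (W⁄F).toAffine.Point) :
    dualFun hφ hn F (Q + Q') = dualFun hφ hn F Q + dualFun hφ hn F Q' := by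
  obtain ⟨P, hP⟩ := exists_up hφ F Q
  obtain ⟨P', hP'⟩ := exists_up hφ F Q'
  apply LibCV66.mp_injective (IsScalarTower.toAlgHom k F (AlgebraicClosure F))
  rw [map_add, dualFun_spec hφ hn _ hP, dualFun_spec hφ hn _ hP',
    dualFun_spec hφ hn _ (P := P + P') (by rw [map_add, map_add, hP, hP']), smul_add]

theorem dualFun_nat {F G : Type} [Field F] [Algebra k F] [Field G] [Algebra k G]
    (σ : F →ₐ[k] G) (Q : (W⁄F).toAffine.Point) :
    dualFun hφ hn G (mp σ Q) = mp σ (dualFun hφ hn F Q) := by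
  obtain ⟨P, hP⟩ := exists_up hφ G (mp σ Q)
  apply LibCV66.mp_injective (IsScalarTower.toAlgHom k G (AlgebraicClosure G))
  rw [dualFun_spec hφ hn _ hP, LibCV66.mp_comp, dualFun_spec hφ hn _ (P := P)]
  rw [hP, LibCV66.mp_comp]

include hφ in
/-- a preimage over a finite extension -/
theorem exists_up_finite (K : Type) [Field K] [Algebra k K] (Q : (W⁄K).toAffine.Point) :
    ∃ (L : Type) (_ : Field L) (_ : Algebra k L) (_ : Algebra K L) (_ : IsScalarTower k K L)
      (_ : FiniteDimensional K L) (P : (V⁄L).toAffine.Point),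
      φ.f L P = mp (IsScalarTower.toAlgHom k K L) Q := by
  obtain ⟨P, hP⟩ := exists_up hφ K Q
  match P, hP with
  | .zero, hP =>
    refine ⟨K, inferInstance, inferInstance, inferInstance, inferInstance, inferInstance, 0, ?_⟩
    have h1 : (.zero : (V⁄(AlgebraicClosure K)).toAffine.Point) = 0 := rfl
    rw [h1, map_zero] at hP
    have h2 : Q = 0 := by
      apply LibCV66.mp_injective (IsScalarTower.toAlgHom k K (AlgebraicClosure K))
      rw [← hP, map_zero]
    rw [h2, map_zero, map_zero]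
  | .some x y hxy, hP =>
    let L : IntermediateField K (AlgebraicClosure K) := IntermediateField.adjoin K {x, y}
    have hL : FiniteDimensional K L :=
      IntermediateField.finiteDimensional_adjoin_pair
        (Algebra.IsAlgebraic.isAlgebraic x).isIntegral
        (Algebra.IsAlgebraic.isAlgebraic y).isIntegral
    have hx : x ∈ L := IntermediateField.subset_adjoin _ _ (by simp)
    have hy : y ∈ L := IntermediateField.subset_adjoin _ _ (by simp)
    let v : L →ₐ[k] AlgebraicClosure K := L.val.restrictScalars k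
    have h2 : (V⁄L).toAffine.Nonsingular (⟨x, hx⟩ : L) ⟨y, hy⟩ :=
      (Affine.baseChange_nonsingular V v.injective (⟨x, hx⟩ : L) ⟨y, hy⟩).1 hxy
    obtain ⟨h3, e3⟩ := mp_some v (⟨x, hx⟩ : L) ⟨y, hy⟩ h2
    refine ⟨L, inferInstance, inferInstance, inferInstance, inferInstance, hL,
      .some ⟨x, hx⟩ ⟨y, hy⟩ h2, ?_⟩
    apply LibCV66.mp_injective v
    rw [← φ.nat, e3, LibCV66.mp_comp]
    exact hP

theorem dualFun_sp (K : Type) [Field K] [Algebra k K] (v : Place k K)
    (Q : (W⁄K).toAffine.Point) (q : (W⁄(RF v)).toAffine.Point) (h : SpR v Q q) :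
    SpR v (dualFun hφ hn K Q) (dualFun hφ hn (RF v) q) := by
  obtain ⟨L, _, _, _, _, _, P, hP⟩ := exists_up_finite hφ K Q
  -- the geometric places
  let Ω := AlgebraicClosure (RF v)
  let ε : RF v →ₐ[k] Ω := IsScalarTower.toAlgHom k (RF v) Ω
  let g : Geo k K Ω := ⟨v, ε⟩
  obtain ⟨hfin, hsum⟩ := fibre (K := L) g
  obtain ⟨p, hp⟩ : ∃ p : Geo k L Ω, Res (IsScalarTower.toAlgHom k K L) p g := by
    by_contra hcon
    push Not at hcon
    obtain ⟨t, ht⟩ := v.exists_uniformizer
    have h1 := hsum t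
    have h2 : {p : Geo k L Ω | Res (IsScalarTower.toAlgHom k K L) p g} = ∅ := by
      rw [Set.eq_empty_iff_forall_notMem]
      exact hcon
    rw [h2] at h1
    simp only [Set.mem_empty_iff_false, finsum_false, finsum_zero] at h1
    have h3 : g.1.ord t = 1 := ht
    rw [h3, mul_one] at h1
    have h4 : 0 < Module.finrank K L := Module.finrank_pos
    omega
  -- the value of `P`
  have h1 : φ.f Ω (ev p P) = mp ε q := by
    have h2 : φ.f (RF p.1) (rd p.1 V P) = rd p.1 W (φ.f L P) :=
      (rd_eq (φ.sp L p.1 _ _ (rd_spec p.1 P))).symm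
    rw [ev_apply, φ.nat, h2, hP]
    have h3 := ev_res hp Q
    rw [ev_apply, ev_apply] at h3
    rw [h3]
    change mp ε (rd v W Q) = mp ε q
    rw [rd_eq h]
  have h4 := dualFun_spec hφ hn ε h1
  have h5 := dualFun_spec hφ hn _ hP
  have h6 : rd v V (dualFun hφ hn K Q) = dualFun hφ hn (RF v) q := by
    apply LibCV66.mp_injective ε
    rw [h4, ← map_nsmul, ← h5, ev_res hp]
    rfl
  rw [← h6]
  exact rd_spec v _

/-- the dual homomorphism -/
noncomputable def dual : Hm W V where
  f F _ _ := AddMonoidHom.mk' (dualFun hφ hn F) (dualFun_add hφ hn F)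
  nat _ _ _ _ _ _ σ Q := dualFun_nat hφ hn σ Q
  sp K _ _ v Q q h := dualFun_sp hφ hn K v Q q h

end dual

/-- **The dual homomorphism.** -/
theorem exists_dual₀ {φ : Hm V W} (hφ : ∃ p : V.toAffine.Point, φ.k0 p ≠ 0) :
    ∃ (n : ℕ) (ψ : Hm W V), 0 < n ∧
      (∀ (F : Type) [Field F] [Algebra k F] (P : (V⁄F).toAffine.Point),
        ψ.f F (φ.f F P) = n • P) ∧
      (∀ (F : Type) [Field F] [Algebra k F] (Q : (W⁄F).toAffine.Point),
        φ.f F (ψ.f F Q) = n • Q) := by
  obtain ⟨n, hn0, hn⟩ := exists_kill hφ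
  refine ⟨n, dual hφ hn, hn0, fun F _ _ P => ?_, fun F _ _ Q => ?_⟩
  · have h1 := dualFun_spec hφ hn (AlgHom.id k F) (Q := φ.f F P) (P := P)
      (by rw [← φ.nat]; congr 1; match P with | .zero => rfl | .some x y h => rfl)
    apply LibCV66.mp_injective (AlgHom.id k F)
    refine h1.trans ?_
    rw [map_nsmul]
    congr 1
    match P with | .zero => rfl | .some x y h => rfl
  · obtain ⟨P, hP⟩ := exists_up hφ F Q
    apply LibCV66.mp_injective (IsScalarTower.toAlgHom k F (AlgebraicClosure F))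
    rw [← φ.nat, map_nsmul, ← hP, ← map_nsmul]
    congr 1
    exact dualFun_spec hφ hn _ hP

end Pool.Agent.LibAC36
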