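import Pool.Agent.LibAC36.Basic

/-!
Homomorphisms of elliptic curves: the kernel is finite and constant; surjectivity.
-/

open WeierstrassCurve Pool.Agent.LibBH2 Pool.Agent.LibIG50 Pool.Agent.LibCHd Pool.Agent.LibAC34
  Pool.Agent.LibCV66
open scoped Classical

namespace Pool.Agent.LibAC36

variable {k : Type} [Field k] [CharZero k] [IsAlgClosed k] {V W : WeierstrassCurve k}
  [V.IsElliptic] [W.IsElliptic]

omit [W.IsElliptic] in
theorem eta_const (φ : Hm V W) {c : W.toAffine.Point}
    (h : φ.f (KE V) (genPt V) = constPt (KE V) c) (p : V.toAffine.Point) : φ.k0 p = c := by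
  obtain ⟨v, hv⟩ := place_exists p
  have h4 := φ.sp (KE V) v _ _ (spec_iff_spR.1 hv)
  rw [h, φ.const] at h4
  have h5 : SpR v (constPt (KE V) c) (constPt (RF v) c) := spec_iff_spR.1 (spec_const v c)
  exact constPt_injective (RF v) (SpR_unique h4 h5)

omit [CharZero k] [IsAlgClosed k] [V.IsElliptic] [W.IsElliptic] in
theorem k0_zero (φ : Hm V W) : φ.k0 0 = 0 := by
  have h1 := φ.const k (0 : V.toAffine.Point)
  rw [constPt_zero', map_zero] at h1
  exact (constPt_injective k (h1.symm.trans (constPt_zero' k).symm))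

omit [W.IsElliptic] in
theorem eta_cases (φ : Hm V W) :
    φ.f (KE V) (genPt V) = 0 ∨ NC (φ.f (KE V) (genPt V)) := by
  rcases nc_or_const (φ.f (KE V) (genPt V)) with h | ⟨c, h⟩
  · exact Or.inr h
  · left
    have h1 := eta_const φ h 0
    rw [k0_zero] at h1
    rw [h, ← h1]
    rfl

omit [W.IsElliptic] in
theorem zero_of_eta (φ : Hm V W) (h : φ.f (KE V) (genPt V) = 0) (F : Type) [Field F]
    [Algebra k F] (P : (V⁄F).toAffine.Point) : φ.f F P = 0 := by
  rcases nc_or_const P with hP | ⟨p, rfl⟩
  · obtain ⟨σ, rfl⟩ := hP.lift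
    rw [φ.nat, h, map_zero]
  · rw [φ.const, eta_const φ (c := 0) h p]
    rfl

omit [IsAlgClosed k] [W.IsElliptic] in
theorem NC.hm {φ : Hm V W} (h : NC (φ.f (KE V) (genPt V))) {F : Type} [Field F]
    [Algebra k F] {P : (V⁄F).toAffine.Point} (hP : NC P) : NC (φ.f F P) := by
  obtain ⟨σ, rfl⟩ := hP.lift
  rw [φ.nat]
  exact h.map σ

/-! ### algebraicity and finiteness -/

omit [CharZero k] [IsAlgClosed k] in
theorem alg_of_trdeg {A B : Type} [Field A] [Field B] [Algebra k A] [Algebra k B] [Algebra A B]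
    [IsScalarTower k A B] (hA : Algebra.trdeg k A = 1) (hB : Algebra.trdeg k B = 1) :
    Algebra.IsAlgebraic A B := by
  rw [← trdeg_eq_zero_iff]
  have h1 := trdeg_add_eq k A (A := B)
  rw [hA, hB] at h1
  have h2 : (1 : Cardinal) + Algebra.trdeg A B = 1 + 0 := by rw [h1, add_zero]
  exact Cardinal.eq_of_add_eq_add_left h2 Cardinal.one_lt_aleph0

omit [IsAlgClosed k] in
theorem adjoin_gen (E : WeierstrassCurve k) [E.IsElliptic] : ∃ x y : KE E,
    IntermediateField.adjoin k {x, y} = ⊤ := by
  have h1 := adjoin_genPt (k := k) (E := E)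
  have h2 := adjoin_coo_some (k := k) (E := E) (M := KE E) ∅ (DE E).s
    ((DE E).w - algebraMap k (KE E) (1 / 2) *
      (algebraMap k (KE E) E.a₁ * (DE E).s + algebraMap k (KE E) E.a₃))
    ((Affine.equation_iff_nonsingular_of_Δ_ne_zero
      (W := E⁄(KE E)) (baseChange_Δ_ne (KE E) E)).1 (gen_equation E))
  rw [Set.empty_union, Set.empty_union] at h2
  exact ⟨_, _, h2.symm.trans h1⟩

omit [CharZero k] [IsAlgClosed k] in
theorem fin_of_alg {A B : Type} [Field A] [Field B] [Algebra k A] [Algebra k B] [Algebra A B]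
    [IsScalarTower k A B] [Algebra.IsAlgebraic A B] {x y : B}
    (h : IntermediateField.adjoin k {x, y} = ⊤) : FiniteDimensional A B := by
  have h1 : IntermediateField.adjoin A {x, y} = ⊤ := by
    have h2 : IntermediateField.adjoin k {x, y} ≤
        (IntermediateField.adjoin A {x, y}).restrictScalars k := by
      rw [IntermediateField.adjoin_le_iff]
      intro z hz
      exact IntermediateField.subset_adjoin A {x, y} hz
    rw [h] at h2
    rw [eq_top_iff]
    intro z _
    exact h2 (IntermediateField.mem_top (x := z))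
  have h3 : FiniteDimensional A (IntermediateField.adjoin A {x, y}) :=
    IntermediateField.finiteDimensional_adjoin_pair (Algebra.IsAlgebraic.isAlgebraic x).isIntegral
      (Algebra.IsAlgebraic.isAlgebraic y).isIntegral
  rw [h1] at h3
  exact Module.Finite.equiv (IntermediateField.topEquiv (F := A) (E := B)).toLinearEquiv

omit [IsAlgClosed k] in
/-- a homomorphism is determined by the image of the generic point -/
theorem hom_ext_gen {E : WeierstrassCurve k} [E.IsElliptic] {F : Type} [Field F] [Algebra k F]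
    {σ τ : KE E →ₐ[k] F} (h : mp σ (genPt E) = mp τ (genPt E)) : σ = τ := by
  obtain ⟨h1, e1⟩ := mp_some σ (DE E).s
    ((DE E).w - algebraMap k (KE E) (1 / 2) *
      (algebraMap k (KE E) E.a₁ * (DE E).s + algebraMap k (KE E) E.a₃))
    ((Affine.equation_iff_nonsingular_of_Δ_ne_zero
      (W := E⁄(KE E)) (baseChange_Δ_ne (KE E) E)).1 (gen_equation E))
  obtain ⟨h2, e2⟩ := mp_some τ (DE E).s
    ((DE E).w - algebraMap k (KE E) (1 / 2) *
      (algebraMap k (KE E) E.a₁ * (DE E).s + algebraMap k (KE E) E.a₃))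
    ((Affine.equation_iff_nonsingular_of_Δ_ne_zero
      (W := E⁄(KE E)) (baseChange_Δ_ne (KE E) E)).1 (gen_equation E))
  have h3 := e1.symm.trans (h.trans e2)
  rw [WeierstrassCurve.Affine.Point.some.injEq] at h3
  obtain ⟨hx, hy⟩ := h3
  let L : IntermediateField k (KE E) :=
    { AlgHom.equalizer σ τ with
      inv_mem' := fun z hz => by
        change σ z⁻¹ = τ z⁻¹
        have hz' : σ z = τ z := hz
        rw [map_inv₀, map_inv₀, hz'] }
  have hL : ∀ z, z ∈ L ↔ σ z = τ z := fun z => Iff.rfl
  have h4 := adjoin_genPt (k := k) (E := E)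
  have h5 := adjoin_coo_some (k := k) (E := E) (M := KE E) ∅ (DE E).s
    ((DE E).w - algebraMap k (KE E) (1 / 2) *
      (algebraMap k (KE E) E.a₁ * (DE E).s + algebraMap k (KE E) E.a₃))
    ((Affine.equation_iff_nonsingular_of_Δ_ne_zero
      (W := E⁄(KE E)) (baseChange_Δ_ne (KE E) E)).1 (gen_equation E))
  rw [Set.empty_union, Set.empty_union] at h5
  have h6 := h5.symm.trans h4
  have h7 : (⊤ : IntermediateField k (KE E)) ≤ L := by
    rw [← h6, IntermediateField.adjoin_le_iff]
    rintro z (rfl | hz)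
    · exact hx
    · rw [Set.mem_singleton_iff] at hz
      rw [hz]
      exact hy
  exact AlgHom.ext fun z => h7 (IntermediateField.mem_top (x := z))

omit [IsAlgClosed k] in
/-- the inclusion of function fields defined by a non-zero homomorphism -/
theorem exists_tau {φ : Hm V W} (h : NC (φ.f (KE V) (genPt V))) : ∃ τ : KE W →ₐ[k] KE V,
    mp τ (genPt W) = φ.f (KE V) (genPt V) := h.lift

theorem infinite_points (V : WeierstrassCurve k) [V.IsElliptic] : Infinite V.toAffine.Point := by
  have h1 : ∀ x : k, ∃ y : k, V.toAffine.Equation x y := by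
    intro x
    obtain ⟨y, hy⟩ := IsAlgClosed.exists_root (Polynomial.X ^ 2 + Polynomial.C (V.a₁ * x + V.a₃) *
        Polynomial.X + Polynomial.C (-(x ^ 3 + V.a₂ * x ^ 2 + V.a₄ * x + V.a₆))) (by
          have h2 : (Polynomial.X ^ 2 + Polynomial.C (V.a₁ * x + V.a₃) *
            Polynomial.X + Polynomial.C (-(x ^ 3 + V.a₂ * x ^ 2 + V.a₄ * x + V.a₆)) :
              Polynomial k).degree = 2 := by compute_degree!
          rw [h2]
          norm_num)
    refine ⟨y, ?_⟩
    rw [WeierstrassCurve.Affine.equation_iff]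
    simp only [Polynomial.IsRoot.def, Polynomial.eval_add, Polynomial.eval_mul,
      Polynomial.eval_pow, Polynomial.eval_X, Polynomial.eval_C] at hy
    linear_combination hy
  choose y hy using h1
  refine Infinite.of_injective (fun x : k =>
    (.some x (y x) (WeierstrassCurve.Affine.equation_iff_nonsingular.1 (hy x)) :
      V.toAffine.Point)) ?_
  intro x x' h
  simp only [WeierstrassCurve.Affine.Point.some.injEq] at h
  exact h.1

/-- the kernel of a homomorphism with nonconstant image is finite -/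
theorem ker_finite {φ : Hm V W} (h : NC (φ.f (KE V) (genPt V))) :
    {p : V.toAffine.Point | φ.k0 p = 0}.Finite := by
  obtain ⟨τ, hτ⟩ := exists_tau h
  let _ : Algebra (KE W) (KE V) := τ.toRingHom.toAlgebra
  have hst : IsScalarTower k (KE W) (KE V) := IsScalarTower.of_algebraMap_eq fun c =>
    (τ.commutes c).symm
  have h1 : Algebra.trdeg k (KE W) = 1 := by simpa using (funF_KE (E := W)).trdeg
  have h2 : Algebra.trdeg k (KE V) = 1 := by simpa using (funF_KE (E := V)).trdeg
  have halg : Algebra.IsAlgebraic (KE W) (KE V) := alg_of_trdeg h1 h2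
  obtain ⟨x, y, hxy⟩ := adjoin_gen V
  have hfin : FiniteDimensional (KE W) (KE V) := fin_of_alg hxy
  -- the automorphisms
  have h3 : ∀ p : {p : V.toAffine.Point | φ.k0 p = 0}, ∃ σ : KE V →ₐ[KE W] KE V,
      mp (σ.restrictScalars k) (genPt V) = genPt V + constPt (KE V) (p : V.toAffine.Point) := by
    rintro ⟨p, hp⟩
    have hnc : NC (genPt V + constPt (KE V) p) := by
      rcases nc_or_const (genPt V + constPt (KE V) p) with h4 | ⟨c, h4⟩
      · exact h4
      · exfalso
        apply (nc_gen V).not_const (c - p)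
        have h5 : constPt (KE V) ((c - p) + p) = constPt (KE V) (c - p) + constPt (KE V) p :=
          HG_const_add (KE V) _ _
        rw [sub_add_cancel] at h5
        rw [← h4] at h5
        exact add_right_cancel h5
    obtain ⟨σ, hσ⟩ := hnc.lift
    have h6 : σ.comp τ = τ := by
      apply hom_ext_gen
      rw [← LibCV66.mp_comp, hτ, ← φ.nat, hσ, map_add, φ.const]
      have h7 : φ.k0 p = 0 := hp
      rw [h7, constPt_zero', add_zero]
    refine ⟨{ σ.toRingHom with commutes' := fun a => ?_ }, hσ⟩
    exact DFunLike.congr_fun h6 a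
  choose g hg using h3
  have hinj : Function.Injective g := by
    intro p q hpq
    have h4 := hg p
    rw [hpq, hg q] at h4
    exact Subtype.ext (constPt_injective _ (add_left_cancel h4)).symm
  have : Finite {p : V.toAffine.Point | φ.k0 p = 0} := Finite.of_injective g hinj
  exact Set.toFinite _

/-- a homomorphism is zero on all points over all fields, or non-zero on the points over `k` -/
theorem zero_or (φ : Hm V W) : (∀ (F : Type) [Field F] [Algebra k F] (P : (V⁄F).toAffine.Point),
    φ.f F P = 0) ∨ ∃ p : V.toAffine.Point, φ.k0 p ≠ 0 := by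
  rcases eta_cases φ with h | h
  · exact Or.inl (zero_of_eta φ h)
  · right
    by_contra hcon
    push Not at hcon
    have h1 := ker_finite h
    have h2 : {p : V.toAffine.Point | φ.k0 p = 0} = Set.univ := Set.eq_univ_of_forall hcon
    rw [h2, Set.finite_univ_iff] at h1
    have := infinite_points V
    exact not_finite V.toAffine.Point

omit [W.IsElliptic] in
theorem nc_of_ne {φ : Hm V W} (hφ : ∃ p : V.toAffine.Point, φ.k0 p ≠ 0) :
    NC (φ.f (KE V) (genPt V)) := by
  rcases eta_cases φ with h | h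
  · exfalso
    obtain ⟨p, hp⟩ := hφ
    exact hp (eta_const φ (c := 0) h p)
  · exact h

/-- the kernel consists of constant points -/
theorem ker_const {φ : Hm V W} (hφ : ∃ p : V.toAffine.Point, φ.k0 p ≠ 0) {F : Type} [Field F]
    [Algebra k F] {P : (V⁄F).toAffine.Point} (hP : φ.f F P = 0) :
    ∃ p : V.toAffine.Point, φ.k0 p = 0 ∧ P = constPt F p := by
  rcases nc_or_const P with h | ⟨p, rfl⟩
  · exact absurd hP (NC.hm (nc_of_ne hφ) h).ne_zero
  · rw [φ.const] at hP
    exact ⟨p, constPt_injective F hP, rfl⟩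

/-- the kernel is killed by a positive integer -/
theorem exists_kill {φ : Hm V W} (hφ : ∃ p : V.toAffine.Point, φ.k0 p ≠ 0) : ∃ n : ℕ, 0 < n ∧
    ∀ (F : Type) [Field F] [Algebra k F] (P : (V⁄F).toAffine.Point), φ.f F P = 0 →
      n • P = 0 := by
  have hfin := ker_finite (nc_of_ne hφ)
  let K : AddSubgroup V.toAffine.Point := φ.k0H.ker
  have hK : Finite K := hfin
  refine ⟨Nat.card K, Nat.card_pos, fun F _ _ P hP => ?_⟩
  obtain ⟨p, hp, rfl⟩ := ker_const hφ hP
  have h1 : Nat.card K • (⟨p, hp⟩ : K) = 0 := card_nsmul_eq_zero'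
  have h2 : Nat.card K • p = 0 := congrArg Subtype.val h1
  have h3 : constPt F ((Nat.card K : ℤ) • p) = (Nat.card K : ℤ) • constPt F p :=
    HG_const_zsmul F _ _
  rw [natCast_zsmul, natCast_zsmul, h2] at h3
  exact h3.symm.trans (constPt_zero' F)

end Pool.Agent.LibAC36
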